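import Pool.Agent.Helper894_Mirror.Far

/-!
# Polynomial decay for the excursions of a light ray above its starting row

The Lorentz mirror model on the square lattice with mirror density `p`, for every `0 < p < 1`.
-/

open MeasureTheory

namespace Pool.Agent.Results.MP_b6bbcf_pr.HalfPlaneReturn

open Pool.Agent.Helper894_Mirror

/-- For every `0 < p < 1` and every `n ≥ 1`, the probability that the light ray which starts at
the origin going north reaches sup-distance `n` from the origin before it comes back to the
horizontal line through its starting point is at most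
`30 * (p ^ 2 * (1 - p) ^ 3 * n) ^ (- 1 / 15)`. -/
theorem result (p : unitInterval) (hp0 : 0 < p) (hp1 : p < 1) (n : ℕ) (hn : 1 ≤ n) :
    (mirrorLaw p).real {ω | ∃ t : ℕ, (n : ℤ) ≤ max |(pos ω t).1| |(pos ω t).2| ∧
        ∀ k : ℕ, 1 ≤ k → k ≤ t → 0 < (pos ω k).2} ≤
      30 * ((p : ℝ) ^ 2 * (1 - (p : ℝ)) ^ 3 * (n : ℝ)) ^ (-(1 / 15) : ℝ) :=
  far_bound (by exact_mod_cast hp0) (by exact_mod_cast hp1) hn

end Pool.Agent.Results.MP_b6bbcf_pr.HalfPlaneReturn
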