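import Pool.Agent.Helper894_Mirror.Slow

/-!
# The light ray of the Lorentz mirror model is sub-ballistic

The Lorentz mirror model on the square lattice with mirror density `p`, for every `0 < p < 1`.
-/

open MeasureTheory

namespace Pool.Agent.Results.MP_b6bbcf_pr.SubBallistic

open Pool.Agent.Helper894_Mirror

/-- For every `0 < p < 1` and every `T ≥ 1`, the expectation of the largest sup-distance from the
origin which the ray from the origin reaches within `T` steps is at most
`26 * (p ^ 2 * (1 - p) ^ 3) ^ (- 1 / 16) * T ^ (15 / 16)`. -/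
theorem result (p : unitInterval) (hp0 : 0 < p) (hp1 : p < 1) (T : ℕ) (hT : 1 ≤ T) :
    ∫⁻ ω, (farthest ω T : ENNReal) ∂(mirrorLaw p) ≤
      ENNReal.ofReal (26 * ((p : ℝ) ^ 2 * (1 - (p : ℝ)) ^ 3) ^ (-(1 / 16) : ℝ) *
        (T : ℝ) ^ (15 / 16 : ℝ)) :=
  slow_bound (by exact_mod_cast hp0) (by exact_mod_cast hp1) hT

end Pool.Agent.Results.MP_b6bbcf_pr.SubBallistic
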